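import Mathlib
import Pool.Agent.Lib.helper12.Idem

namespace Pool.Agent.Results.MP_a7ee28_al.Third

open Matrix

variable {K : Type} [Field K] {n : ℕ}

/-- irreducible tridiagonal -/
def ITri (M : Matrix (Fin n) (Fin n) K) : Prop :=
  ∀ i j : Fin n, (i.val + 1 < j.val ∨ j.val + 1 < i.val → M i j = 0) ∧
    (i.val + 1 = j.val ∨ j.val + 1 = i.val → M i j ≠ 0)

/-- the matrix of `X` in the basis formed by the columns of `P` -/
def inB (P : GL (Fin n) K) (X : Matrix (Fin n) (Fin n) K) : Matrix (Fin n) (Fin n) K :=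
  (P⁻¹).val * X * P.val

def LeonardPair (X Y : Matrix (Fin n) (Fin n) K) : Prop :=
  (∃ P, (inB P X).IsDiag ∧ ITri (inB P Y)) ∧ (∃ P, (inB P Y).IsDiag ∧ ITri (inB P X))

def LeonardTriple (X Y Z : Matrix (Fin n) (Fin n) K) : Prop :=
  (∃ P, (inB P X).IsDiag ∧ ITri (inB P Y) ∧ ITri (inB P Z)) ∧
  (∃ P, (inB P Y).IsDiag ∧ ITri (inB P X) ∧ ITri (inB P Z)) ∧
  (∃ P, (inB P Z).IsDiag ∧ ITri (inB P X) ∧ ITri (inB P Y))

/-- an irreducible module for the equitable presentation: the images of the generators -/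
def IrrMod (q : K) (X Xi Y Z : Matrix (Fin n) (Fin n) K) : Prop :=
  X * Xi = 1 ∧ Xi * X = 1 ∧ q • (X * Y) - q⁻¹ • (Y * X) = (q - q⁻¹) • 1 ∧
    q • (Y * Z) - q⁻¹ • (Z * Y) = (q - q⁻¹) • 1 ∧ q • (Z * X) - q⁻¹ • (X * Z) = (q - q⁻¹) • 1 ∧
    ∀ W : Submodule K (Fin n → K),
      (∀ v ∈ W, X *ᵥ v ∈ W ∧ Xi *ᵥ v ∈ W ∧ Y *ᵥ v ∈ W ∧ Z *ᵥ v ∈ W) → W = ⊥ ∨ W = ⊤

def tri (M : Matrix (Fin 3) (Fin 3) ℚ) : Prop :=
  ∀ i j : Fin 3, (i.val + 1 < j.val ∨ j.val + 1 < i.val → M i j = 0) ∧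
    (i.val + 1 = j.val ∨ j.val + 1 = i.val → M i j ≠ 0)

def ch (P Q X Y Z : Matrix (Fin 3) (Fin 3) ℚ) : Prop :=
  P * Q = 1 ∧ Q * P = 1 ∧ (∀ i j, i ≠ j → (Q * X * P) i j = 0) ∧ tri (Q * Y * P) ∧ tri (Q * Z * P)

noncomputable def f (K : Type) [Field K] [CharZero K] :
    Matrix (Fin 3) (Fin 3) ℚ →+* Matrix (Fin 3) (Fin 3) K := (algebraMap ℚ K).mapMatrix

theorem sm [CharZero K] (q : ℚ) (M : Matrix (Fin 3) (Fin 3) ℚ) :
    f K (q • M) = (q : K) • f K M := by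
  ext i j; simp [f]

theorem third [CharZero K] {P Q X Y Z : Matrix (Fin 3) (Fin 3) ℚ} (h : ch P Q X Y Z) :
    ∃ g : GL (Fin 3) K, (inB g (f K X)).IsDiag ∧ ITri (inB g (f K Y)) ∧ ITri (inB g (f K Z)) := by
  obtain ⟨h1, h2, h3, h4, h5⟩ := h
  let g : GL (Fin 3) K := ⟨f K P, f K Q, by rw [← map_mul, h1, map_one],
    by rw [← map_mul, h2, map_one]⟩
  have k : ∀ Z : Matrix (Fin 3) (Fin 3) ℚ, inB g (f K Z) = f K (Q * Z * P) := fun Z => by
    rw [map_mul, map_mul]; rfl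
  have t : ∀ M, tri M → ITri (f K M) := fun M h i j =>
    ⟨fun e => by
      show algebraMap ℚ K (M i j) = 0
      rw [(h i j).1 e, map_zero], fun e => (map_ne_zero (algebraMap ℚ K)).2 ((h i j).2 e)⟩
  refine ⟨g, fun i j hij => ?_, by rw [k]; exact t _ h4, by rw [k]; exact t _ h5⟩
  rw [k]
  show algebraMap ℚ K ((Q * X * P) i j) = 0
  rw [h3 i j hij, map_zero]

def X0 : Matrix (Fin 3) (Fin 3) ℚ := !![4, 0, 0; 1, 1, 0; 0, 1, 1/4]
def Xi : Matrix (Fin 3) (Fin 3) ℚ := !![1/4, 0, 0; -1/4, 1, 0; 1, -4, 4]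
def Y0 : Matrix (Fin 3) (Fin 3) ℚ := !![1/4, 0, 0; 0, 1, 0; 0, 0, 4]
def Z0 : Matrix (Fin 3) (Fin 3) ℚ := !![4, -45/4, 0; 0, 1, -45/16; 0, 0, 1/4]
def A : Matrix (Fin 3) (Fin 3) ℚ := X0 - (4 : ℚ) • Y0
def B : Matrix (Fin 3) (Fin 3) ℚ := Z0 - (3 : ℚ) • (Y0 * Z0)
def C : Matrix (Fin 3) (Fin 3) ℚ := A - (3 : ℚ) • B

theorem c1 : ch !![450, 0, 0; 75, 51, 0; 4, 4, 1]
    !![1/450, 0, 0; -1/306, 1/51, 0; 16/3825, -4/51, 1] A B C := by
  unfold ch tri; decide +kernel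
theorem c2 : ch !![1, 15, -45; 0, 16, -60; 0, 0, 8]
    !![1, -15/16, -45/32; 0, 1/16, 15/32; 0, 0, 1/8] B A C := by
  unfold ch tri; decide +kernel
theorem c3 : ch !![405, -135, -45; 180, 60, 24; 16, 16, 8]
    !![1/990, 1/264, -1/176; -1/90, 1/24, -3/16; 2/99, -1/11, 45/88] C A B := by
  unfold ch tri; decide +kernel

theorem weyl [CharZero K] (M N : Matrix (Fin 3) (Fin 3) ℚ)
    (h : (2 : ℚ) • (M * N) - (1 / 2 : ℚ) • (N * M) = (3 / 2 : ℚ) • 1) :
    (2 : K) • (f K M * f K N) - (2 : K)⁻¹ • (f K N * f K M) = ((2 : K) - 2⁻¹) • 1 := by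
  have := congrArg (f K) h
  simp only [map_sub, sm, map_mul, map_one] at this
  linear_combination (norm := module) this

open Pool.Agent.Lib.helper12.Idem in
theorem irr [CharZero K] (W : Submodule K (Fin 3 → K)) (h1 : ∀ v ∈ W, f K A *ᵥ v ∈ W)
    (h2 : ∀ v ∈ W, f K B *ᵥ v ∈ W) : W = ⊥ ∨ W = ⊤ :=
  irred K A B ![[(1, [])], [(-3, []), (1, [true])], [(-9, []), (1, [true, true])]]
    ![[(48/95, []), (80/399, [true]), (64/5985, [true, true])],
      [(-48/95, []), (128/665, [true]), (256/17955, [true, true])],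
      [(-64/4275, []), (256/17955, [true]), (-512/269325, [true, true])]]
    [(4/45, [false, false]), (19/45, [false]), (22/45, [])]
    (fun i => Matrix.single i 0 1 * !![1, -15/16, -45/32; 0, 0, 0; 0, 0, 0])
    (fun j => Matrix.single 0 j 1)
    (by decide +kernel) (by decide +kernel) (by decide +kernel) W
    (by rintro _ ⟨v, hv, rfl⟩; exact h1 v hv) (by rintro _ ⟨v, hv, rfl⟩; exact h2 v hv)

theorem result (K : Type) [Field K] [CharZero K] :
    ∃ (q : K) (X Xi Y Z A B C : Matrix (Fin 3) (Fin 3) K),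
      q ≠ 0 ∧ (∀ m : ℕ, 0 < m → q ^ m ≠ 1) ∧ LeonardPair A B ∧ IrrMod q X Xi Y Z ∧
      A ∈ Submodule.span K {1, X, Y, X * Y} ∧ B ∈ Submodule.span K {1, Y, Z, Y * Z} ∧
      LeonardTriple A B C ∧ C ∉ Submodule.span K {1, Z, X, Z * X} ∧
      ∀ σ : Matrix (Fin 3) (Fin 3) K ≃ₗ[K] Matrix (Fin 3) (Fin 3) K,
        (∀ M N, σ (M * N) = σ N * σ M) → σ A = A → σ B = B →
        σ C ∉ Submodule.span K {1, Z, X, Z * X} := by
  have hA : f K A = f K X0 - (4 : K) • f K Y0 := by rw [A, map_sub, sm]; simp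
  have hB : f K B = f K Z0 - (3 : K) • (f K Y0 * f K Z0) := by rw [B, map_sub, sm, map_mul]; simp
  have hC : f K C = f K A - (3 : K) • f K B := by rw [C, map_sub, sm]; simp
  have t1 := third (K := K) c1
  have t2 := third (K := K) c2
  have nC : f K C ∉ Submodule.span K {1, f K Z0, f K X0, f K Z0 * f K X0} := fun h => by
    have key : ∀ M ∈ Submodule.span K {1, f K Z0, f K X0, f K Z0 * f K X0},
        -15 * M 0 0 - 5 * M 0 1 + 45 * M 1 0 + 15 * M 1 1 + 4 * M 1 2 = 0 := fun M hM => by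
      induction hM using Submodule.span_induction with
      | mem M hM =>
        rcases hM with rfl | rfl | rfl | rfl <;>
          simp [f, Z0, X0, Matrix.mul_apply, Fin.sum_univ_three] <;> norm_num
      | zero => simp
      | add M N _ _ a b => simp only [Matrix.add_apply]; linear_combination a + b
      | smul c M _ a => simp only [Matrix.smul_apply, smul_eq_mul]; linear_combination c * a
    have := key _ h
    have e : C = !![0, 135/16, 0; 1, 3, -135/8; 0, 1, -15/2] := by decide +kernel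
    simp [f, e] at this
    norm_num at this
  refine ⟨2, f K X0, f K Xi, f K Y0, f K Z0, f K A, f K B, f K C, two_ne_zero, fun m hm h => ?_,
    ⟨t1.imp fun _ h => ⟨h.1, h.2.1⟩, t2.imp fun _ h => ⟨h.1, h.2.1⟩⟩,
    ⟨?_, ?_, weyl _ _ (by decide +kernel), weyl _ _ (by decide +kernel),
      weyl _ _ (by decide +kernel), fun W hW => irr W (fun v hv => ?_) fun v hv => ?_⟩, ?_, ?_,
    ⟨t1, t2, third c3⟩, nC, fun σ _ h1 h2 => ?_⟩
  · have h2 : (2 : ℕ) ^ m = 1 := by exact_mod_cast h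
    have := Nat.one_lt_two_pow hm.ne'
    omega
  · rw [← map_mul, (by decide +kernel : X0 * Xi = 1), map_one]
  · rw [← map_mul, (by decide +kernel : Xi * X0 = 1), map_one]
  · rw [hA, Matrix.sub_mulVec, Matrix.smul_mulVec]
    exact W.sub_mem (hW v hv).1 (W.smul_mem _ (hW v hv).2.2.1)
  · rw [hB, Matrix.sub_mulVec, Matrix.smul_mulVec, ← Matrix.mulVec_mulVec]
    exact W.sub_mem (hW v hv).2.2.2 (W.smul_mem _ (hW _ (hW v hv).2.2.2).2.2.1)
  · rw [hA]
    exact sub_mem (Submodule.subset_span (by simp))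
      (Submodule.smul_mem _ _ (Submodule.subset_span (by simp)))
  · rw [hB]
    exact sub_mem (Submodule.subset_span (by simp))
      (Submodule.smul_mem _ _ (Submodule.subset_span (by simp)))
  · rw [hC, map_sub, map_smul, h1, h2, ← hC]
    exact nC

end Pool.Agent.Results.MP_a7ee28_al.Third
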